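import Pool.Agent.N311.SH.Stm

/-!
# SH/KLCa: homeomorphisms of the plane can be made holomorphic or antiholomorphic near 0
-/

set_option autoImplicit false
open Set Metric Filter Topology
open scoped OnePoint

namespace Pool.Agent.N170.SH

open Pool.Agent.N311.SH

/-- gluing with the identity outside a disc -/
theorem glue {ε : ℝ} {F : ℂ → ℂ} (hF : ContinuousOn F (closedBall 0 ε))
    (hb : ∀ z, ‖z‖ = ε → F z = z) : Continuous fun z : ℂ => if ‖z‖ ≤ ε then F z else z := by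
  rw [← continuousOn_univ]
  have hu : (univ : Set ℂ) = closedBall 0 ε ∪ {z | ε ≤ ‖z‖} := by
    ext z
    simp only [mem_univ, mem_union, mem_closedBall_zero_iff, Set.mem_ofPred_eq, true_iff]
    exact le_total _ _
  rw [hu]
  refine ContinuousOn.union_of_isClosed ?_ ?_ isClosed_closedBall
    (isClosed_le continuous_const continuous_norm)
  · refine hF.congr fun z hz => ?_
    exact if_pos (mem_closedBall_zero_iff.1 hz)
  · refine continuousOn_id.congr fun z hz => ?_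
    show (if ‖z‖ ≤ ε then F z else z) = z
    split_ifs with h
    · exact hb z (le_antisymm h hz)
    · rfl

theorem klc (h1 : S_RM) (h2 : S_EXT) (h3 : S_CIR) : S_KLC := by
  intro f hf ε hε
  have hεc : (ε : ℂ) ≠ 0 := by exact_mod_cast hε.ne'
  have hεn : ‖(ε : ℂ)‖ = ε := by
    rw [Complex.norm_real, Real.norm_of_nonneg hε.le]
  set f' : ℂ ≃ₜ ℂ := (Homeomorph.mulLeft₀ (ε : ℂ) hεc).trans f with hf'
  have hf'a : ∀ z, f' z = f (ε * z) := fun z => rfl
  obtain ⟨φ, ψ, hBi, hφ0, hφd⟩ := h1 f' (by rw [hf'a, mul_zero, hf])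
  obtain ⟨u, v, hu, hv, huv, hin⟩ := h2 f' φ ψ hBi
  have hu1 : ∀ z : ℂ, ‖z‖ = 1 → ‖u z‖ = 1 := by
    intro z hz
    refine le_antisymm (huv z hz.le).1 (not_lt.1 fun hlt => ?_)
    have := (hin (u z) hlt).2.1
    rw [(huv z hz.le).2.2.1, hz] at this
    exact lt_irrefl _ this
  have hv1 : ∀ z : ℂ, ‖z‖ = 1 → ‖v z‖ = 1 := by
    intro z hz
    refine le_antisymm (huv z hz.le).2.1 (not_lt.1 fun hlt => ?_)
    have := (hin (v z) hlt).1
    rw [(huv z hz.le).2.2.2, hz] at this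
    exact lt_irrefl _ this
  have hcirc : ∀ w : ℂ → ℂ, ContinuousOn w (closedBall 0 1) → ∀ h : ∀ z : ℂ, ‖z‖ = 1 → ‖w z‖ = 1,
      Continuous fun ζ : Circle => (⟨w ζ, mem_sphere_zero_iff_norm.2 (h ζ ζ.norm_coe)⟩ : Circle) := by
    intro w hw h
    refine Continuous.subtype_mk ?_ _
    exact hw.comp_continuous continuous_subtype_val fun ζ =>
      mem_closedBall_zero_iff.2 (Circle.norm_coe ζ).le
  let s : Circle ≃ₜ Circle :=
    { toFun := fun ζ => ⟨u ζ, mem_sphere_zero_iff_norm.2 (hu1 ζ ζ.norm_coe)⟩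
      invFun := fun ζ => ⟨v ζ, mem_sphere_zero_iff_norm.2 (hv1 ζ ζ.norm_coe)⟩
      left_inv := fun ζ => Circle.ext (huv ζ ζ.norm_coe.le).2.2.1
      right_inv := fun ζ => Circle.ext (huv ζ ζ.norm_coe.le).2.2.2
      continuous_toFun := hcirc u hu hu1
      continuous_invFun := hcirc v hv hv1 }
  obtain ⟨S, hSn, hSs, e, hSe⟩ := h3 s
  have hSs' : ∀ z : ℂ, ‖z‖ = 1 → S z = u z := by
    intro z hz
    exact hSs ⟨z, mem_sphere_zero_iff_norm.2 hz⟩
  have hSin : ∀ z, ‖S.symm z‖ = ‖z‖ := by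
    intro z
    rw [← hSn (S.symm z), S.apply_symm_apply]
  -- scaling
  have hdiv : ∀ z : ℂ, ‖z / ε‖ = ‖z‖ / ε := fun z => by rw [norm_div, hεn]
  have hle : ∀ z : ℂ, ‖z‖ ≤ ε → ‖z / ε‖ ≤ 1 := fun z hz => by
    rw [hdiv]
    exact (div_le_one hε).2 hz
  have hsc : ∀ z : ℂ, (ε : ℂ) * (z / ε) = z := fun z => mul_div_cancel₀ z hεc
  have hsc' : ∀ z : ℂ, (ε : ℂ) * z / ε = z := fun z => by
    rw [mul_comm, mul_div_cancel_right₀ z hεc]
  set F : ℂ → ℂ := fun z => ε * v (S (z / ε)) with hFdef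
  set G : ℂ → ℂ := fun z => ε * S.symm (u (z / ε)) with hGdef
  have hdc : Continuous fun z : ℂ => z / (ε : ℂ) := continuous_id.div_const _
  have hmaps : MapsTo (fun z : ℂ => z / (ε : ℂ)) (closedBall 0 ε) (closedBall 0 1) := fun z hz =>
    mem_closedBall_zero_iff.2 (hle z (mem_closedBall_zero_iff.1 hz))
  have hFc : ContinuousOn F (closedBall 0 ε) := by
    refine continuousOn_const.mul ?_
    refine hv.comp (S.continuous.comp hdc).continuousOn ?_
    intro z hz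
    rw [mem_closedBall_zero_iff]
    show ‖S (z / ε)‖ ≤ 1
    rw [hSn]
    exact mem_closedBall_zero_iff.1 (hmaps hz)
  have hGc : ContinuousOn G (closedBall 0 ε) := by
    refine continuousOn_const.mul ?_
    exact S.symm.continuous.comp_continuousOn (hu.comp hdc.continuousOn hmaps)
  have hFb : ∀ z, ‖z‖ = ε → F z = z := by
    intro z hz
    have h5 : ‖z / ε‖ = 1 := by rw [hdiv, hz, div_self hε.ne']
    show (ε : ℂ) * v (S (z / ε)) = z
    rw [hSs' _ h5, (huv _ h5.le).2.2.1, hsc]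
  have hGb : ∀ z, ‖z‖ = ε → G z = z := by
    intro z hz
    have h5 : ‖z / ε‖ = 1 := by rw [hdiv, hz, div_self hε.ne']
    show (ε : ℂ) * S.symm (u (z / ε)) = z
    rw [← hSs' _ h5, S.symm_apply_apply, hsc]
  have hFn : ∀ z, ‖z‖ ≤ ε → ‖F z‖ ≤ ε := by
    intro z hz
    show ‖(ε : ℂ) * v (S (z / ε))‖ ≤ ε
    rw [norm_mul, hεn]
    have h5 : ‖S (z / ε)‖ ≤ 1 := by
      rw [hSn]
      exact hle z hz
    have := (huv _ h5).2.1
    nlinarith
  have hGn : ∀ z, ‖z‖ ≤ ε → ‖G z‖ ≤ ε := by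
    intro z hz
    show ‖(ε : ℂ) * S.symm (u (z / ε))‖ ≤ ε
    rw [norm_mul, hεn, hSin]
    have := (huv _ (hle z hz)).1
    nlinarith
  have hGF : ∀ z, ‖z‖ ≤ ε → G (F z) = z := by
    intro z hz
    show (ε : ℂ) * S.symm (u ((ε * v (S (z / ε))) / ε)) = z
    have h5 : ‖S (z / ε)‖ ≤ 1 := by
      rw [hSn]
      exact hle z hz
    rw [hsc', (huv _ h5).2.2.2, S.symm_apply_apply, hsc]
  have hFG : ∀ z, ‖z‖ ≤ ε → F (G z) = z := by
    intro z hz
    show (ε : ℂ) * v (S ((ε * S.symm (u (z / ε))) / ε)) = z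
    rw [hsc', S.apply_symm_apply, (huv _ (hle z hz)).2.2.1, hsc]
  let k : ℂ ≃ₜ ℂ :=
    { toFun := fun z => if ‖z‖ ≤ ε then F z else z
      invFun := fun z => if ‖z‖ ≤ ε then G z else z
      left_inv := fun z => by
        show (if ‖(if ‖z‖ ≤ ε then F z else z)‖ ≤ ε then G (if ‖z‖ ≤ ε then F z else z) else
          (if ‖z‖ ≤ ε then F z else z)) = z
        by_cases h : ‖z‖ ≤ ε
        · rw [if_pos h, if_pos (hFn z h), hGF z h]
        · rw [if_neg h, if_neg h]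
      right_inv := fun z => by
        show (if ‖(if ‖z‖ ≤ ε then G z else z)‖ ≤ ε then F (if ‖z‖ ≤ ε then G z else z) else
          (if ‖z‖ ≤ ε then G z else z)) = z
        by_cases h : ‖z‖ ≤ ε
        · rw [if_pos h, if_pos (hGn z h), hFG z h]
        · rw [if_neg h, if_neg h]
      continuous_toFun := glue hFc hFb
      continuous_invFun := glue hGc hGb }
  have hk : ∀ z, k z = if ‖z‖ ≤ ε then F z else z := fun z => rfl
  refine ⟨k, ?_, ε / 2, e, fun w => φ (w / ε), by positivity, ?_, ?_, ?_, ?_⟩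
  · intro z hz
    rw [hk]
    split_ifs with h
    · exact hFb z (le_antisymm h hz)
    · rfl
  · have h4 : AnalyticAt ℂ φ ((0 : ℂ) / ε) := by
      rw [zero_div]
      exact hBi.dφ.analyticAt (isOpen_ball.mem_nhds (mem_ball_self one_pos))
    exact h4.comp (f := fun w : ℂ => w / (ε : ℂ)) (analyticAt_id.div analyticAt_const hεc)
  · show φ (0 / ε) = 0
    rw [zero_div, hφ0]
  · have h4 : DifferentiableAt ℂ φ 0 :=
      (hBi.dφ.analyticAt (isOpen_ball.mem_nhds (mem_ball_self one_pos))).differentiableAt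
    have h5 : HasDerivAt φ (deriv φ 0) ((0 : ℂ) / ε) := by
      rw [zero_div]
      exact h4.hasDerivAt
    have h6 : HasDerivAt (fun w : ℂ => w / (ε : ℂ)) (1 / (ε : ℂ)) 0 :=
      (hasDerivAt_id (0 : ℂ)).div_const _
    have h7 : HasDerivAt (fun w : ℂ => φ (w / ε)) (deriv φ 0 * (1 / (ε : ℂ))) 0 :=
      HasDerivAt.comp (0 : ℂ) h5 h6
    rw [h7.deriv]
    exact mul_ne_zero hφd (one_div_ne_zero hεc)
  · intro z hz
    have h4 : ‖z‖ ≤ ε := by linarith
    have h5 : ‖z / ε‖ ≤ 1 / 2 := by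
      rw [hdiv, div_le_iff₀ hε]
      linarith
    have h6 : ‖S (z / ε)‖ < 1 := by
      rw [hSn]
      linarith
    have h7 : ‖v (S (z / ε))‖ < 1 := (hin _ h6).2.1
    rw [hk, if_pos h4]
    show f (ε * v (S (z / ε))) = φ (cj e z / ε)
    rw [← hf'a, (hin _ h7).2.2, (huv _ h6.le).2.2.2, hSe _ h5]
    congr 1
    rw [div_eq_mul_inv, div_eq_mul_inv, cj_mul, cj_inv, cj_ofReal]

end Pool.Agent.N170.SH
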